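import Pool.Agent.L5helper73.RM.Fur

/-!
# Furstenberg systems of aperiodic multiplicative functions with values `1` and `-1`: almost sure convergence

In the Bernoulli system of the question the coordinates are independent fair signs, hence almost every point
has square root cancellation along every sequence of distinct places, and its Dirichlet series converges in the
half plane `Re s > 1 / 2`. We prove that this holds in every Furstenberg system of every aperiodic
multiplicative function with values `1` and `-1`, and a maximal inequality for the function itself.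
-/

set_option autoImplicit false

namespace Pool.Agent.Results.MP_4a7640_nt.AlmostSureConvergence

open MeasureTheory Filter Topology
open Pool.Agent.Results.MP_4a7640_nt.UniformGap (Val X IsFurstenbergSystem IsMult Aperiodic)

/-- **Theorem.** Let `f` be an aperiodic multiplicative function with values `1` and `-1`.

Let `μ` be a Furstenberg system of `f` and let `b 0, b 1, ...` be distinct integers, in any order.
(1) If `∑ |c j|² log² (j + 2)` is finite, then `∑ c j x (b j)` converges for almost every `x`.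
(2) If `|c j| ≤ 1` for all `j`, then for almost every `x`, for all `ε > 0`, the sum of `c j x (b j)` over `j < N`
is `o(√(N + 1) (log (N + 2)) ^ (3 / 2 + ε))`.
(3) For almost every `x` there is a holomorphic function `F` on the half plane `Re s > 1 / 2` such that
the Dirichlet series `∑ x (b j) (j + 1) ^ (-s)` converges to `F s` for all `s` in this half plane.

(4) Let `b 0, b 1, ...` be distinct natural numbers, `c` a sequence of complex numbers, `k` a natural number
and `δ > 0`. For all large `N` the logarithmic average over `n ≤ N` of the maximum over `J < 2 ^ k` of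
`|c 0 f (n + b 0) + ... + c (J - 1) f (n + b (J - 1))|²` is at most `k² ∑_{i < 2 ^ k} |c i|² + δ`. -/
theorem result (f : ℕ → Val) (hf : IsMult f) (ha : Aperiodic f) :
    (∀ μ : Measure X, IsFurstenbergSystem f μ → ∀ b : ℕ → ℤ, Function.Injective b →
      (∀ c : ℕ → ℂ, (Summable fun j : ℕ => ‖c j‖ ^ 2 * (Real.log (j + 2)) ^ 2) →
        ∀ᵐ x ∂μ, ∃ L : ℂ,
          Tendsto (fun N => ∑ j ∈ Finset.range N, c j * ((x (b j) : ℝ) : ℂ)) atTop (𝓝 L)) ∧
      (∀ c : ℕ → ℂ, (∀ j, ‖c j‖ ≤ 1) → ∀ᵐ x ∂μ, ∀ ε : ℝ, 0 < ε →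
        Tendsto (fun N : ℕ => ‖∑ j ∈ Finset.range N, c j * ((x (b j) : ℝ) : ℂ)‖ /
          (√(N + 1) * (Real.log (N + 2)) ^ (3 / 2 + ε))) atTop (𝓝 0)) ∧
      ∀ᵐ x ∂μ, ∃ F : ℂ → ℂ, DifferentiableOn ℂ F {s | 1 / 2 < s.re} ∧ ∀ s : ℂ, 1 / 2 < s.re →
        Tendsto (fun N => ∑ j ∈ Finset.range N, ((x (b j) : ℝ) : ℂ) * ((j : ℂ) + 1) ^ (-s)) atTop (𝓝 (F s))) ∧
    ∀ b : ℕ → ℕ, Function.Injective b → ∀ (c : ℕ → ℂ) (k : ℕ) (δ : ℝ), 0 < δ → ∃ N₀ : ℕ, ∀ N, N₀ ≤ N →
      ∀ J : ℕ → ℕ, (∀ n, J n < 2 ^ k) →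
        (1 / Real.log N) * ∑ n ∈ Finset.Icc 1 N, (1 / (n : ℝ)) *
            ‖∑ i ∈ Finset.range (J n), c i * ((f (n + b i) : ℝ) : ℂ)‖ ^ 2 ≤
          (k : ℝ) ^ 2 * ∑ i ∈ Finset.range (2 ^ k), ‖c i‖ ^ 2 + δ := by
  refine ⟨fun μ hμ b hb => ?_, fun b hb c k δ hδ =>
    (Pool.Agent.L5helper73.RM.lorth hf ha hb).maximal c k hδ⟩
  have hμ1 : IsProbabilityMeasure μ := hμ.1
  have h := Pool.Agent.L5helper73.RM.orth_fur hf ha hμ hb
  exact ⟨fun c hc => h.ae_tendsto_complex hc, fun c hc => h.ae_sqrt hc, h.ae_dirichlet⟩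

end Pool.Agent.Results.MP_4a7640_nt.AlmostSureConvergence
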