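import Pool.Agent.L5helper13.CoinMix

/-!
# Furstenberg systems of aperiodic multiplicative functions with values `1` and `-1`: coin tossing along
infinite sets of coordinates

In the Bernoulli system of the question all coordinates are independent fair signs. We prove for every
Furstenberg system: every infinite set `A` of coordinates contains an infinite sequence `b` of distinct
coordinates for which the law of `(x (b 0), x (b 1), ...)` has a density in `[1 - ε, 1 + ε]` with respect to
coin tossing, and for which `(x (b m), x (b (m + 1)), ...)` is asymptotically independent of every event of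
the system, and of every event of a given extension of it, and asymptotically distributed as coin tossing, in
total variation.
-/

set_option autoImplicit false

namespace Pool.Agent.Results.MP_4a7640_nt.CoinTossingSubsequences

open MeasureTheory Filter Topology
open Pool.Agent.Results.MP_4a7640_nt.UniformGap (Val X shift seq IsFurstenbergSystem IsMult Aperiodic)

/-- the law of one toss of a fair coin with the sides `1` and `-1` -/
noncomputable def toss : Measure Val :=
  (1 / 2 : ENNReal) • Measure.dirac (⟨1, by simp⟩ : Val) + (1 / 2 : ENNReal) • Measure.dirac (⟨-1, by simp⟩ : Val)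

/-- the law of a sequence of independent tosses of this coin -/
noncomputable def coins : Measure (ℕ → Val) := Measure.infinitePi fun _ => toss

/-- **Theorem.** Let `μ` be a Furstenberg system of an aperiodic multiplicative function with values `1` and
`-1`, let `π` be a measure preserving map to `(X, μ)` from a measure space `(Z, ρ)` with a countably
generated `σ`-algebra (for example the identity of `X`, or the projection of a joining with another system),
let `A` be an infinite set of integers and `ε > 0`. There is an injective sequence `b` in `A` such that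
`|μ((x (b j))_j ∈ E) - coins(E)| ≤ ε coins(E)` for all events `E` of the sequence space, and such that for
every event `D` of `Z`, `ρ(D ∩ {(π(z) (b (m + j)))_j ∈ E})` tends to `ρ(D) coins(E)` as `m` tends to infinity,
uniformly in `E`. -/
theorem result (f : ℕ → Val) (hf : IsMult f) (ha : Aperiodic f) (μ : Measure X) (hμ : IsFurstenbergSystem f μ)
    (Z : Type) [MeasurableSpace Z] [MeasurableSpace.CountablyGenerated Z] (ρ : Measure Z) (π : Z → X)
    (hπ : MeasurePreserving π ρ μ) (A : Set ℤ) (hA : A.Infinite) (ε : ℝ) (hε : 0 < ε) :
    ∃ b : ℕ → ℤ, Function.Injective b ∧ (∀ j, b j ∈ A) ∧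
      (∀ E : Set (ℕ → Val), MeasurableSet E →
        |μ.real {x | (fun j => x (b j)) ∈ E} - coins.real E| ≤ ε * coins.real E) ∧
      ∀ D : Set Z, MeasurableSet D → ∀ δ : ℝ, 0 < δ → ∃ m₀ : ℕ, ∀ m, m₀ ≤ m →
        ∀ E : Set (ℕ → Val), MeasurableSet E →
          |ρ.real ({z | (fun j => π z (b (m + j))) ∈ E} ∩ D) - coins.real E * ρ.real D| ≤ δ := by
  have hμ1 : IsProbabilityMeasure μ := hμ.1
  have hρ1 : IsProbabilityMeasure ρ := by
    refine ⟨?_⟩
    have h := hπ.measure_preimage (s := Set.univ) MeasurableSet.univ.nullMeasurableSet
    rw [Set.preimage_univ] at h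
    rw [h, hμ1.measure_univ]
  have hm : ∀ a : ℤ, Measurable fun x : X => x a := fun a => measurable_pi_apply a
  have hy : ∀ a : ℤ, Measurable fun z => π z a := fun a => (hm a).comp hπ.measurable
  have h1 : ∀ a : ℤ, ∀ᵐ z ∂ρ, ((π z a : Val) : ℝ) = 1 ∨ ((π z a : Val) : ℝ) = -1 := fun a =>
    hπ.quasiMeasurePreserving.ae (Pool.Agent.L5helper13.fur_one hf hμ a)
  have h2 : ∀ a b : ℤ, a ≠ b → ∫ z, ((π z a : Val) : ℝ) * ((π z b : Val) : ℝ) ∂ρ = 0 := by
    intro a b hab
    have h3 := Pool.Agent.L5helper13.fur_two hf ha hμ hab
    rw [← hπ.map_eq, integral_map hπ.measurable.aemeasurable] at h3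
    · exact h3
    · exact ((measurable_subtype_coe.comp (hm a)).mul (measurable_subtype_coe.comp (hm b))).aestronglyMeasurable
  obtain ⟨b, hb1, hb2, hb3, hb4⟩ := Pool.Agent.L5helper13.CS.abstract_mix (y := fun a z => π z a) hy h1 h2 A hA ε hε
  refine ⟨b, hb1, hb2, fun E hE => ?_, hb4⟩
  have h3 := hb3 E hE
  have hφ : Measurable fun (x : X) (j : ℕ) => x (b j) := measurable_pi_lambda _ fun j => hm _
  have h4 : ρ.real {z | (fun j => π z (b j)) ∈ E} = μ.real {x | (fun j => x (b j)) ∈ E} := by
    have h5 : ρ {z | (fun j => π z (b j)) ∈ E} = μ {x | (fun j => x (b j)) ∈ E} :=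
      hπ.measure_preimage (hφ hE).nullMeasurableSet
    unfold Measure.real
    rw [h5]
  rw [h4] at h3
  exact h3

end Pool.Agent.Results.MP_4a7640_nt.CoinTossingSubsequences
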