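import Mathlib
import Pool.Agent.L5helper4.ML.Fin

/-!
# One parameter families of multiplicative functions with values `1` and `-1`: Bernoulli systems for almost all
parameters

For almost every real `α` the function `f` with `f(p) = (-1) ^ ⌊α p⌋` at the primes (`f(p ^ k) = f(p) ^ k`), and its
product with any given multiplicative function with values `1` and `-1`, is aperiodic and has a unique Furstenberg
system, the Bernoulli system of independent fair signs. The same holds with `⌊α λ_p⌋` for many sequences `λ_p`, with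
`⌊p ^ α⌋`, `α > 0`, and with `⌊α ^ p⌋`, `α > 1`.
-/

set_option autoImplicit false

namespace Pool.Agent.Results.MP_4a7640_nt.MetricFamilies

open Finset Filter MeasureTheory
open Pool.Agent.W257.FS (SignMul)
open Pool.Agent.L5helper4.ML (twist Good)

/-- the function with the values `(-1) ^ ⌊φ p⌋` at the primes, times `g` -/
noncomputable def fam (g φ : ℕ → ℝ) : ℕ → ℝ := twist g fun p => Pool.Agent.L5helper4.ML.sq (φ p)

theorem result (g : ℕ → ℝ) (hg : SignMul g) (c : ℕ → ℝ) (hc : ∀ n, |c n| ≤ 1) :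
    (∀ (lam : ℕ → ℝ) (C κ : ℝ), 0 < κ → (∀ p : ℕ, p.Prime → 0 < lam p) →
      (∀ p q : ℕ, p.Prime → q.Prime → q < p → lam q ≤ C * ((q : ℝ) / p) ^ κ * lam p) →
      ∀ᵐ α : ℝ, Good (fam g fun p => α * lam p) c) ∧
    (∀ᵐ α : ℝ, 0 < α → Good (fam g fun p => (p : ℝ) ^ α) c) ∧
    (∀ᵐ α : ℝ, 1 < α → Good (fam g fun p => α ^ p) c) ∧
    ∀ (Φ Φ' Φ'' : ℕ → ℝ → ℝ) (u v C κ : ℝ), 0 < κ →
      (∀ p, Measurable (Φ p)) →
      (∀ p : ℕ, p.Prime → ∀ t ∈ Set.Icc u v, HasDerivAt (Φ p) (Φ' p t) t ∧ HasDerivAt (Φ' p) (Φ'' p t) t ∧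
        0 < Φ' p t ∧ 0 ≤ Φ'' p t) →
      (∀ p : ℕ, p.Prime → ContinuousOn (Φ'' p) (Set.Icc u v)) →
      (∀ p q : ℕ, p.Prime → q.Prime → q < p → ∀ t ∈ Set.Icc u v,
        Φ' q t ≤ C * ((q : ℝ) / p) ^ κ * Φ' p t) →
      ∀ᵐ α : ℝ, α ∈ Set.Icc u v → Good (fam g fun p => Φ p α) c := by
  have hsq : ∀ (Φ : ℕ → ℝ → ℝ) (p : ℕ) (t : ℝ), Pool.Agent.L5helper4.ML.sq (Φ p t) = 1 ∨ Pool.Agent.L5helper4.ML.sq (Φ p t) = -1 :=
    fun Φ p t => Pool.Agent.L5helper4.ML.sq_or _
  have pos_of : ∀ (lam : ℕ → ℝ) (C κ : ℝ), (∀ p : ℕ, p.Prime → 0 < lam p) →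
      (lam 2 ≤ C * (((2 : ℕ) : ℝ) / (3 : ℕ)) ^ κ * lam 3) → 0 < C := by
    intro lam C κ hpos h23
    have h2 := hpos 2 Nat.prime_two
    have h3 := hpos 3 Nat.prime_three
    have h4 : 0 < (((2 : ℕ) : ℝ) / (3 : ℕ)) ^ κ := Real.rpow_pos_of_pos (by norm_num) κ
    by_contra h5
    push Not at h5
    have h6 : C * (((2 : ℕ) : ℝ) / (3 : ℕ)) ^ κ * lam 3 ≤ 0 :=
      mul_nonpos_of_nonpos_of_nonneg (mul_nonpos_of_nonpos_of_nonneg h5 h4.le) h3.le
    linarith
  refine ⟨?_, ?_, ?_, ?_⟩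
  · intro lam C κ hκ hpos hcmp
    have hC := pos_of lam C κ hpos (hcmp 3 2 Nat.prime_three Nat.prime_two (by norm_num))
    have h1 := Pool.Agent.L5helper4.ML.ae_family (fun p t => Pool.Agent.L5helper4.ML.sq (t * lam p))
      (fun p => Pool.Agent.L5helper4.ML.sq_meas.comp (measurable_id.mul_const _)) (hsq fun p t => t * lam p)
      (fun k => -(k : ℝ)) (fun k => (k : ℝ)) (fun k => by
        have : (0 : ℝ) ≤ k := by positivity
        linarith) (fun k => by
        obtain ⟨C', h⟩ := Pool.Agent.L5helper67.MLQ.qi_linear lam κ C hκ hC hpos hcmp (-(k : ℝ)) k (by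
          have : (0 : ℝ) ≤ k := by positivity
          linarith)
        exact ⟨C', κ, hκ, h⟩) g hg c hc
    filter_upwards [h1] with α hα
    apply hα
    obtain ⟨k, hk⟩ := exists_nat_ge |α|
    exact ⟨k, abs_le.1 hk⟩
  · have h1 := Pool.Agent.L5helper4.ML.ae_family (fun p t => Pool.Agent.L5helper4.ML.sq ((p : ℝ) ^ t))
      (fun p => Pool.Agent.L5helper4.ML.sq_meas.comp (measurable_const.pow measurable_id))
      (hsq fun p t => (p : ℝ) ^ t)
      (fun k => 1 / ((k : ℝ) + 1)) (fun k => (k : ℝ) + 1) (fun k => by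
        have : (0 : ℝ) ≤ k := by positivity
        rw [div_le_iff₀ (by positivity)]
        nlinarith) (fun k => by
        have h0 : (0 : ℝ) ≤ k := by positivity
        obtain ⟨C', h⟩ := Pool.Agent.L5helper67.MLQ.qi_rpow (1 / ((k : ℝ) + 1)) ((k : ℝ) + 1) (by positivity) (by
          rw [div_le_iff₀ (by positivity)]
          nlinarith)
        exact ⟨C', _, by positivity, h⟩) g hg c hc
    filter_upwards [h1] with α hα h0
    apply hα
    obtain ⟨k, hk⟩ := exists_nat_ge (max α (1 / α))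
    have hk0 : (0 : ℝ) ≤ k := by positivity
    refine ⟨k, ?_, ?_⟩
    · have h2 : 1 / α ≤ (k : ℝ) + 1 := ((le_max_right _ _).trans hk).trans (by linarith)
      rw [div_le_iff₀ h0] at h2
      rw [div_le_iff₀ (by positivity)]
      linarith
    · have := (le_max_left α (1 / α)).trans hk
      linarith
  · have h1 := Pool.Agent.L5helper4.ML.ae_family (fun p t => Pool.Agent.L5helper4.ML.sq (t ^ p))
      (fun p => Pool.Agent.L5helper4.ML.sq_meas.comp (measurable_id.pow_const _))
      (hsq fun p t => t ^ p)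
      (fun k => 1 + 1 / ((k : ℝ) + 1)) (fun k => (k : ℝ) + 2) (fun k => by
        have : (0 : ℝ) ≤ k := by positivity
        have h2 : 1 / ((k : ℝ) + 1) ≤ 1 := by
          rw [div_le_iff₀ (by positivity)]
          linarith
        linarith) (fun k => by
        have h0 : (0 : ℝ) ≤ k := by positivity
        have h2 : 1 / ((k : ℝ) + 1) ≤ 1 := by
          rw [div_le_iff₀ (by positivity)]
          linarith
        obtain ⟨C', h⟩ := Pool.Agent.L5helper67.MLQ.qi_pow (1 + 1 / ((k : ℝ) + 1)) ((k : ℝ) + 2) (by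
          have : 0 < 1 / ((k : ℝ) + 1) := by positivity
          linarith) (by linarith)
        exact ⟨C', 1, one_pos, h⟩) g hg c hc
    filter_upwards [h1] with α hα h0
    apply hα
    obtain ⟨k, hk⟩ := exists_nat_ge (max α (1 / (α - 1)))
    have hk0 : (0 : ℝ) ≤ k := by positivity
    have hα1 : 0 < α - 1 := by linarith
    refine ⟨k, ?_, ?_⟩
    · have h2 : 1 / (α - 1) ≤ (k : ℝ) + 1 := ((le_max_right _ _).trans hk).trans (by linarith)
      rw [div_le_iff₀ hα1] at h2
      have h3 : 1 / ((k : ℝ) + 1) ≤ α - 1 := by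
        rw [div_le_iff₀ (by positivity)]
        linarith
      linarith
    · have := (le_max_left α (1 / (α - 1))).trans hk
      linarith
  · intro Φ Φ' Φ'' u v C κ hκ hm hd hcont hcmp
    rcases le_or_gt u v with huv | huv
    · have hC : 0 < C := by
        have hu : u ∈ Set.Icc u v := ⟨le_rfl, huv⟩
        exact pos_of (fun p => Φ' p u) C κ (fun p hp => (hd p hp u hu).2.2.1)
          (hcmp 3 2 Nat.prime_three Nat.prime_two (by norm_num) u hu)
      have h1 := Pool.Agent.L5helper4.ML.ae_family (fun p t => Pool.Agent.L5helper4.ML.sq (Φ p t))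
        (fun p => Pool.Agent.L5helper4.ML.sq_meas.comp (hm p)) (hsq Φ)
        (fun _ => u) (fun _ => v) (fun _ => huv) (fun _ => by
          obtain ⟨C', h⟩ := Pool.Agent.L5helper67.MLQ.qi_convex Φ Φ' Φ'' u v C κ huv hκ hC
            (fun p hp t ht => (hd p hp t ht).1) (fun p hp t ht => (hd p hp t ht).2.1)
            (fun p hp t ht => (hd p hp t ht).2.2.1) (fun p hp t ht => (hd p hp t ht).2.2.2) hcont hcmp
          exact ⟨C', κ, hκ, h⟩) g hg c hc
      filter_upwards [h1] with α hα h0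
      exact hα ⟨0, h0⟩
    · exact Eventually.of_forall fun α h => absurd (h.1.trans h.2) (not_le.2 huv)

end Pool.Agent.Results.MP_4a7640_nt.MetricFamilies
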