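import Pool.Agent.L5helper2.CH.B13

/-! MP_4a7640_nt (helper2): Q1 for almost every random perturbation of an arbitrary multiplicative function on a very
thin set of primes, jointly with arbitrary prescribed sequences. -/

set_option autoImplicit false

namespace Pool.Agent.Results.MP_4a7640_nt.SparseSignsJointSystems

open Finset MeasureTheory ProbabilityTheory Filter Topology

/-- multiplicative functions on the positive integers with values `1` and `-1` -/
def MulSign (f : ℕ → ℝ) : Prop :=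
  (∀ n, 1 ≤ n → f n = 1 ∨ f n = -1) ∧
    ∀ m n : ℕ, 1 ≤ m → 1 ≤ n → Nat.Coprime m n → f (m * n) = f m * f n

/-- infinite distance to every Dirichlet character -/
def Aperiodic (f : ℕ → ℝ) : Prop := ∀ (q : ℕ), 1 ≤ q → ∀ χ : DirichletCharacter ℂ q,
  Tendsto (fun x : ℕ => ∑ p ∈ (Icc 1 x).filter Nat.Prime,
    (1 - ((f p : ℂ) * starRingEnd ℂ (χ (p : ZMod q))).re) / p) atTop atTop

/-- `g` times the completely multiplicative function with the values `u p` at the primes `p` -/
noncomputable def twist (g u : ℕ → ℝ) (n : ℕ) : ℝ := g n * n.factorization.prod fun p v => u p ^ v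

/-- `D(x) = ∑_{p ≤ x} (1 - |e p|) / p` -/
noncomputable def dist (e : ℕ → ℝ) (x : ℕ) : ℝ := ∑ p ∈ (Icc 1 x).filter Nat.Prime, (1 - |e p|) / p

/-- `D(x) - D((log log x) ^ 4)` tends to infinity -/
def Growing (D : ℕ → ℝ) : Prop :=
  Tendsto (fun x : ℕ => D x - D ⌊Real.log (Real.log x) ^ 4⌋₊) atTop atTop

/-- the linear forms `a i * n + b i` are admissible and pairwise not proportional -/
def Forms {k : ℕ} (a b : Fin k → ℕ) : Prop := (∀ i, 1 ≤ a i) ∧ ∀ i j, i ≠ j → a i * b j ≠ a j * b i

open Classical in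
/-- the sum of `w n` over the `n ≤ x` with `f (a i * n + b i) = s i` for all `i`, minus `2 ^ (-k)` times the
sum of `w n` over all `n ≤ x` -/
noncomputable def excess (f w : ℕ → ℝ) {k : ℕ} (a b : Fin k → ℕ) (s : Fin k → ℝ) (x : ℕ) : ℝ :=
  ∑ n ∈ (Icc 1 x).filter (fun n => ∀ i, f (a i * n + b i) = s i), w n - (1 / 2) ^ k * ∑ n ∈ Icc 1 x, w n

section aux

open Pool.Agent.L5helper2.CH

variable {Ω : Type} [MeasurableSpace Ω] {P : Measure Ω} {X : ℕ → Ω → ℝ}

lemma twist_eq (g : ℕ → ℝ) (ω : Ω) {n : ℕ} (hn : n ≠ 0) : twist g (fun p => X p ω) n = g n * FF X ω n := by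
  unfold FF twist
  rw [if_neg hn]

lemma twist_mulSign (h : Signs P X) {g : ℕ → ℝ} (hg : MulSign g) (ω : Ω) : MulSign (twist g fun p => X p ω) := by
  constructor
  · intro n hn
    rw [twist_eq g ω (by omega)]
    rcases hg.1 n hn with h1 | h1 <;> rcases h.abs_FF_eq ω (by omega : n ≠ 0) with h2 | h2 <;> rw [h1, h2] <;> norm_num
  · intro m n hm hn hmn
    have h1 : 1 * 1 ≤ m * n := Nat.mul_le_mul hm hn
    rw [twist_eq g ω (by omega), twist_eq g ω (by omega : m ≠ 0), twist_eq g ω (by omega : n ≠ 0),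
      hg.2 m n hm hn hmn, FF_mul]
    ring

open Classical in
lemma excess_eq {f w : ℕ → ℝ} {k : ℕ} {a b : Fin k → ℕ} (s : Fin k → ℝ) (x : ℕ) :
    excess f w a b s x = ∑ n ∈ Icc 1 x, w n * ((if ∀ i, f (a i * n + b i) = s i then (1 : ℝ) else 0) - (1 / 2) ^ k) := by
  unfold excess
  rw [sum_filter, mul_sum, ← sum_sub_distrib]
  refine sum_congr rfl fun n _ => ?_
  split_ifs <;> ring

lemma tendsto_of_growing {D : ℕ → ℝ} (hD : Growing D) (h0 : ∀ x, 0 ≤ D x) : Tendsto D atTop atTop :=
  tendsto_atTop_mono (fun x => by linarith [h0 ⌊Real.log (Real.log x) ^ 4⌋₊]) hD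

end aux

theorem almost_all {Ω : Type} [MeasurableSpace Ω] (P : Measure Ω) [IsProbabilityMeasure P] (X : ℕ → Ω → ℝ)
    (hmeas : ∀ p, Measurable (X p)) (hind : iIndepFun (fun p : Nat.Primes => X p) P)
    (hval : ∀ p ω, X p ω = 1 ∨ X p ω = -1) (hD : Growing (dist fun p => ∫ ω, X p ω ∂P))
    (g : ℕ → ℝ) (hg : MulSign g) (w : ℕ → ℕ → ℝ) (hw : ∀ m n, |w m n| ≤ 1) :
    ∀ᵐ ω ∂P, MulSign (twist g fun p => X p ω) ∧ Aperiodic (twist g fun p => X p ω) ∧
      ∀ (k : ℕ) (a b : Fin k → ℕ), Forms a b → ∀ s : Fin k → ℝ, (∀ i, s i = 1 ∨ s i = -1) → ∀ m : ℕ,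
        Tendsto (fun x : ℕ => excess (twist g fun p => X p ω) (w m) a b s x / x) atTop (𝓝 0) ∧
        Tendsto (fun x : ℕ => excess (twist g fun p => X p ω) (fun n => w m n / n) a b s x / Real.log x)
          atTop (𝓝 0) := by
  classical
  have hS : Pool.Agent.L5helper2.CH.Signs P X := ⟨inferInstance, hmeas, hind, hval⟩
  have hDist : Pool.Agent.L5helper2.CH.Dist P X = dist fun p => ∫ ω, X p ω ∂P := rfl
  have hD1 : Tendsto (fun y : ℕ => Pool.Agent.L5helper2.CH.Dist P X y -
      Pool.Agent.L5helper2.CH.Dist P X ⌊Real.log (Real.log y) ^ 4⌋₊) atTop atTop := hD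
  have hD2 : Tendsto (Pool.Agent.L5helper2.CH.Dist P X) atTop atTop := tendsto_of_growing hD1 hS.Dist_nonneg
  have hpat : ∀ᵐ ω ∂P, ∀ (m k : ℕ) (a b : Fin k → ℕ), Forms a b → ∀ s : Fin k → ℝ, (∀ i, s i = 1 ∨ s i = -1) →
      Pool.Agent.L5helper2.CH.Nul fun n => w m n *
        ((if ∀ i, g (a i * n + b i) * Pool.Agent.L5helper2.CH.FF X ω (a i * n + b i) = s i then (1 : ℝ) else 0) -
          (1 / 2) ^ k) := by
    rw [ae_all_iff]; intro m
    rw [ae_all_iff]; intro k
    rw [ae_all_iff]; intro a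
    rw [ae_all_iff]; intro b
    by_cases hF : Forms a b
    · filter_upwards [hS.pattern_nul hD1 hg.1 (hw m) hF.1 hF.2] with ω hω _
      exact hω
    · exact Eventually.of_forall fun ω h => absurd h hF
  have hap : ∀ᵐ ω ∂P, Aperiodic (twist g fun p => X p ω) := by
    unfold Aperiodic
    rw [ae_all_iff]
    intro q
    by_cases hq : 1 ≤ q
    swap
    · exact Eventually.of_forall fun ω h => absurd h hq
    have : NeZero q := ⟨by omega⟩
    have h2 : ∀ᵐ ω ∂P, ∀ χ : DirichletCharacter ℂ q,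
        Tendsto (fun x : ℕ => ∑ p ∈ (Icc 1 x).filter Nat.Prime,
          (1 - ((twist g (fun p => X p ω) p : ℂ) * starRingEnd ℂ (χ (p : ZMod q))).re) / p) atTop atTop := by
      rw [ae_all_iff]
      intro χ
      have hr : ∀ p : ℕ, |if 1 ≤ p then g p * (χ (p : ZMod q)).re else 0| ≤ 1 := by
        intro p
        split_ifs with hp
        · rw [abs_mul]
          refine mul_le_one₀ ?_ (abs_nonneg _) ((Complex.abs_re_le_norm _).trans (χ.norm_le_one _))
          rcases hg.1 p hp with h3 | h3 <;> rw [h3] <;> simp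
        · simp
      filter_upwards [hS.dist_div hD2 hr] with ω hω
      refine hω.congr fun x => ?_
      refine sum_congr rfl fun p hp => ?_
      have hpp : p.Prime := (mem_filter.1 hp).2
      have h5 : (Finsupp.single p 1).prod (fun p v => X p ω ^ v) = X p ω := by
        rw [Finsupp.prod_single_index]
        · exact pow_one _
        · exact pow_zero _
      have h4 : twist g (fun p => X p ω) p = g p * X p ω := by
        unfold twist
        rw [hpp.factorization, h5]
      rw [h4, if_pos hpp.one_lt.le]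
      congr 1
      simp only [Complex.mul_re, Complex.ofReal_re, Complex.ofReal_im, zero_mul, sub_zero,
        Complex.conj_re]
      ring
    filter_upwards [h2] with ω hω _
    exact hω
  filter_upwards [hpat, hap] with ω h1 h2
  refine ⟨twist_mulSign hS hg ω, h2, fun k a b hF s hs m => ?_⟩
  have h3 := h1 m k a b hF s hs
  have hterm : ∀ n, 1 ≤ n → ((if ∀ i, twist g (fun p => X p ω) (a i * n + b i) = s i then (1 : ℝ) else 0) - (1 / 2) ^ k) =
      ((if ∀ i, g (a i * n + b i) * Pool.Agent.L5helper2.CH.FF X ω (a i * n + b i) = s i then (1 : ℝ) else 0) -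
          (1 / 2) ^ k) := by
    intro n hn
    have h4 : ∀ i, twist g (fun p => X p ω) (a i * n + b i) =
        g (a i * n + b i) * Pool.Agent.L5helper2.CH.FF X ω (a i * n + b i) := by
      intro i
      have h5 : 1 * 1 ≤ a i * n := Nat.mul_le_mul (hF.1 i) hn
      exact twist_eq g ω (by omega)
    simp only [h4]
  constructor
  · refine h3.tendsto.congr fun x => ?_
    rw [excess_eq]
    congr 1
    refine sum_congr rfl fun n hn => ?_
    rw [hterm n (mem_Icc.1 hn).1]
  · refine h3.log.congr fun x => ?_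
    rw [excess_eq]
    congr 1
    refine sum_congr rfl fun n hn => ?_
    rw [hterm n (mem_Icc.1 hn).1]
    ring

/-! ### Existence -/

/-- the fair coin -/
noncomputable def coin : Measure Bool := (2⁻¹ : ENNReal) • Measure.dirac true + (2⁻¹ : ENNReal) • Measure.dirac false

instance : IsProbabilityMeasure coin := by
  refine ⟨?_⟩
  unfold coin
  rw [Measure.add_apply, Measure.smul_apply, Measure.smul_apply, measure_univ, measure_univ, smul_eq_mul, mul_one]
  exact ENNReal.inv_two_add_inv_two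

open Classical in
/-- the signs: fair coins on `S`, and `1` outside `S` -/
noncomputable def sgn (S : Set ℕ) (p : ℕ) (b : Bool) : ℝ := if p ∈ S then (if b then 1 else -1) else 1

lemma int_coin (S : Set ℕ) (p : ℕ) :
    ∫ b, sgn S p b ∂coin = (sgn S p true + sgn S p false) / 2 := by
  unfold coin
  have hint : ∀ (r : ENNReal) (t : Bool), r ≠ ⊤ → Integrable (sgn S p) (r • Measure.dirac t) := by
    intro r t hr
    exact (integrable_dirac (by simp)).smul_measure hr
  rw [integral_add_measure (hint _ _ (by simp)) (hint _ _ (by simp)), integral_smul_measure, integral_smul_measure,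
    integral_dirac, integral_dirac]
  simp only [smul_eq_mul, ENNReal.toReal_inv, ENNReal.toReal_ofNat]
  ring

open Classical in
theorem existence (S : Set ℕ)
    (hS : Growing fun x : ℕ => ∑ p ∈ (Icc 1 x).filter (fun p : ℕ => p.Prime ∧ p ∈ S), 1 / (p : ℝ))
    (g : ℕ → ℝ) (hg : MulSign g) :
    ∃ u : ℕ → ℝ, (∀ p, u p = 1 ∨ u p = -1) ∧ (∀ p, p ∉ S → u p = 1) ∧ MulSign (twist g u) ∧
      Aperiodic (twist g u) ∧
      ∀ (k : ℕ) (a b : Fin k → ℕ), Forms a b → ∀ s : Fin k → ℝ, (∀ i, s i = 1 ∨ s i = -1) →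
        Tendsto (fun x : ℕ => excess (twist g u) (fun _ => 1) a b s x / x) atTop (𝓝 0) := by
  set P : Measure (ℕ → Bool) := Measure.infinitePi fun _ => coin with hP
  set X : ℕ → (ℕ → Bool) → ℝ := fun p ω => sgn S p (ω p) with hX
  have hmeasb : ∀ p, Measurable (sgn S p) := fun p => measurable_of_countable _
  have hmeas : ∀ p, Measurable (X p) := fun p => (hmeasb p).comp (measurable_pi_apply p)
  have hind : iIndepFun (fun p : Nat.Primes => X p) P :=
    (iIndepFun_infinitePi (P := fun _ : ℕ => coin) (X := fun p => sgn S p) hmeasb).precomp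
      (g := fun p : Nat.Primes => (p : ℕ)) (fun p q h => Subtype.ext h)
  have hval : ∀ p ω, X p ω = 1 ∨ X p ω = -1 := by
    intro p ω
    rw [hX]
    simp only
    unfold sgn
    split_ifs
    · exact Or.inl rfl
    · exact Or.inr rfl
    · exact Or.inl rfl
  have hint : ∀ p, ∫ ω, X p ω ∂P = (sgn S p true + sgn S p false) / 2 := by
    intro p
    rw [← int_coin, ← Measure.infinitePi_map_eval (fun _ : ℕ => coin) p, ← hP]
    rw [integral_map (measurable_pi_apply p).aemeasurable (hmeasb p).aestronglyMeasurable]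
  have hdist : (dist fun p => ∫ ω, X p ω ∂P) = fun x =>
      ∑ p ∈ (Icc 1 x).filter (fun p : ℕ => p.Prime ∧ p ∈ S), 1 / (p : ℝ) := by
    funext x
    unfold dist
    rw [← filter_filter, sum_filter (fun p => p ∈ S)]
    refine sum_congr rfl fun p _ => ?_
    show (1 - |∫ ω, X p ω ∂P|) / (p : ℝ) = _
    rw [hint]
    by_cases h1 : p ∈ S
    · have e1 : sgn S p true = 1 := by
        unfold sgn
        rw [if_pos h1, if_pos rfl]
      have e2 : sgn S p false = -1 := by
        unfold sgn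
        rw [if_pos h1, if_neg (by simp)]
      rw [e1, e2, if_pos h1]
      norm_num
    · have e1 : ∀ b, sgn S p b = 1 := by
        intro b
        unfold sgn
        rw [if_neg h1]
      rw [e1, e1, if_neg h1, add_self_div_two]
      norm_num
  have hfin := almost_all P X hmeas hind hval (by rw [hdist]; exact hS) g hg (fun _ _ => 1) (fun _ _ => by simp)
  obtain ⟨ω, hω⟩ := hfin.exists
  refine ⟨fun p => X p ω, fun p => hval p ω, fun p hp => ?_, hω.1, hω.2.1, fun k a b hF s hs =>
    (hω.2.2 k a b hF s hs 0).1⟩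
  rw [hX]
  simp only
  unfold sgn
  rw [if_neg hp]

open Classical in
/-- (1) almost every perturbation, jointly with countably many prescribed bounded sequences; (2) existence -/
theorem result :
    (∀ {Ω : Type} [MeasurableSpace Ω] (P : Measure Ω) [IsProbabilityMeasure P] (X : ℕ → Ω → ℝ),
      (∀ p, Measurable (X p)) → iIndepFun (fun p : Nat.Primes => X p) P → (∀ p ω, X p ω = 1 ∨ X p ω = -1) →
      Growing (dist fun p => ∫ ω, X p ω ∂P) →
      ∀ g : ℕ → ℝ, MulSign g → ∀ w : ℕ → ℕ → ℝ, (∀ m n, |w m n| ≤ 1) →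
      ∀ᵐ ω ∂P, MulSign (twist g fun p => X p ω) ∧ Aperiodic (twist g fun p => X p ω) ∧
        ∀ (k : ℕ) (a b : Fin k → ℕ), Forms a b → ∀ s : Fin k → ℝ, (∀ i, s i = 1 ∨ s i = -1) → ∀ m : ℕ,
          Tendsto (fun x : ℕ => excess (twist g fun p => X p ω) (w m) a b s x / x) atTop (𝓝 0) ∧
          Tendsto (fun x : ℕ => excess (twist g fun p => X p ω) (fun n => w m n / n) a b s x / Real.log x)
            atTop (𝓝 0)) ∧
    (∀ S : Set ℕ,
      (Growing fun x : ℕ => ∑ p ∈ (Icc 1 x).filter (fun p : ℕ => p.Prime ∧ p ∈ S), 1 / (p : ℝ)) →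
      ∀ g : ℕ → ℝ, MulSign g →
        ∃ u : ℕ → ℝ, (∀ p, u p = 1 ∨ u p = -1) ∧ (∀ p, p ∉ S → u p = 1) ∧ MulSign (twist g u) ∧
          Aperiodic (twist g u) ∧
          ∀ (k : ℕ) (a b : Fin k → ℕ), Forms a b → ∀ s : Fin k → ℝ, (∀ i, s i = 1 ∨ s i = -1) →
            Tendsto (fun x : ℕ => excess (twist g u) (fun _ => 1) a b s x / x) atTop (𝓝 0)) :=
  ⟨fun P _ X hmeas hind hval hD g hg w hw => almost_all P X hmeas hind hval hD g hg w hw,
    fun S hS g hg => existence S hS g hg⟩

end Pool.Agent.Results.MP_4a7640_nt.SparseSignsJointSystems
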